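import Pool.Agent.W_MP_42dd51_an.Space

set_option autoImplicit false
open scoped Classical

namespace Pool.Agent.W_MP_42dd51_an

open Finset

noncomputable section

/-- `ℓ²(X)`. -/
abbrev L2 (X : Type) := lp (fun _ : X => ℂ) 2

/-- Basis vector. -/
abbrev e {X : Type} (x : X) : L2 X := lp.single 2 x (1 : ℂ)

theorem inner_e {X : Type} (x : X) (f : L2 X) : inner ℂ (e x) f = f x := by
  rw [lp.inner_single_left]
  simp

theorem e_apply {X : Type} (x x' : X) : (e x : L2 X) x' = if x' = x then 1 else 0 := by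
  by_cases h : x' = x
  · subst h
    simp [e, lp.single_apply]
  · simp [e, lp.single_apply, h]

theorem ext_entries {X Y : Type} (S T : L2 X →L[ℂ] L2 Y)
    (h : ∀ y x, inner ℂ (e y) (S (e x)) = inner ℂ (e y) (T (e x))) : S = T := by
  have hadj : ∀ y, ContinuousLinearMap.adjoint S (e y) = ContinuousLinearMap.adjoint T (e y) := by
    intro y
    apply lp.ext
    funext x
    rw [← inner_e, ← inner_e, ContinuousLinearMap.adjoint_inner_right,
      ContinuousLinearMap.adjoint_inner_right, ← inner_conj_symm, h, inner_conj_symm]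
  ext1 f
  apply lp.ext
  funext y
  rw [← inner_e, ← inner_e, ← ContinuousLinearMap.adjoint_inner_left, hadj,
    ContinuousLinearMap.adjoint_inner_left]

/-- Normalising factor. -/
def nf (x : XPt) : ℝ := (Real.sqrt (wt x))⁻¹

theorem nf_mul (x : XPt) : nf x * nf x * (wt x : ℝ) = 1 := by
  have h : (0 : ℝ) < (wt x : ℝ) := by exact_mod_cast wt_pos x
  unfold nf
  rw [← mul_inv, Real.mul_self_sqrt h.le]
  exact inv_mul_cancel₀ h.ne'

theorem nf_pos (x : XPt) : 0 < nf x := by
  have h : (0 : ℝ) < (wt x : ℝ) := by exact_mod_cast wt_pos x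
  unfold nf
  positivity

/-- Orthonormal coefficients. -/
def cf (y : YPt) (k : Fin 4) : ℝ := nf y.x * (M y.x y.a k : ℝ)

theorem cf_orth' (x : XPt) (k l : Fin 4) :
    ∑ a, cf ⟨x, a⟩ k * cf ⟨x, a⟩ l = if k = l then 1 else 0 := by
  have h := M_orth' x k l
  have h' : (∑ a, (M x a k : ℝ) * (M x a l : ℝ)) = if k = l then (wt x : ℝ) else 0 := by
    have := congrArg (fun z : ℤ => (z : ℝ)) h
    push_cast at this
    exact this
  calc ∑ a, cf ⟨x, a⟩ k * cf ⟨x, a⟩ l
      = nf x * nf x * ∑ a, (M x a k : ℝ) * (M x a l : ℝ) := by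
        rw [Finset.mul_sum]
        refine Finset.sum_congr rfl fun a _ => ?_
        unfold cf
        ring
    _ = if k = l then 1 else 0 := by
        rw [h']
        split_ifs
        · exact nf_mul x
        · simp

theorem cf_ip (y z : YPt) : ∑ k, cf y k * cf z k = nf y.x * nf z.x * (ip y z : ℝ) := by
  unfold cf ip
  push_cast
  rw [Finset.mul_sum]
  refine Finset.sum_congr rfl fun a _ => ?_
  ring

theorem cf_orth (x : XPt) (a b : Fin 4) :
    ∑ k, cf ⟨x, a⟩ k * cf ⟨x, b⟩ k = if a = b then 1 else 0 := by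
  rw [cf_ip]
  unfold ip
  simp only
  rw [M_orth]
  split_ifs
  · exact nf_mul x
  · simp

/-- Images of basis vectors. -/
def vv (k : Fin 4) (x : XPt) : L2 YPt := ∑ a : Fin 4, ((cf ⟨x, a⟩ k : ℝ) : ℂ) • e (⟨x, a⟩ : YPt)

theorem vv_apply (k : Fin 4) (x : XPt) (y : YPt) :
    (vv k x : L2 YPt) y = if y.x = x then ((cf y k : ℝ) : ℂ) else 0 := by
  unfold vv
  rw [lp.coeFn_sum, Finset.sum_apply]
  simp only [lp.coeFn_smul, Pi.smul_apply, e_apply, smul_eq_mul]
  obtain ⟨x', b⟩ := y
  simp only [YPt.mk.injEq]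
  by_cases h : x' = x
  · subst h
    simp
  · simp [h]

theorem vv_inner (k l : Fin 4) (x x' : XPt) :
    inner ℂ (vv k x) (vv l x') = if x = x' ∧ k = l then (1 : ℂ) else 0 := by
  have h1 : inner ℂ (vv k x) (vv l x') =
      ∑ a : Fin 4, ((cf ⟨x, a⟩ k : ℝ) : ℂ) * (vv l x' : L2 YPt) ⟨x, a⟩ := by
    conv_lhs => rw [vv]
    rw [sum_inner]
    refine Finset.sum_congr rfl fun a _ => ?_
    rw [inner_smul_left, inner_e, Complex.conj_ofReal]
  rw [h1]
  simp only [vv_apply]
  by_cases h : x = x'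
  · subst h
    simp only [if_true, true_and]
    have := cf_orth' x k l
    have h2 := congrArg (fun z : ℝ => (z : ℂ)) this
    push_cast at h2
    rw [h2]
    split_ifs <;> simp
  · simp [h]

theorem vv_norm (k : Fin 4) (x : XPt) : ‖vv k x‖ = 1 := by
  have h := vv_inner k k x x
  simp only [and_self, if_true] at h
  have h2 : ‖vv k x‖ ^ 2 = 1 := by
    have := inner_self_eq_norm_sq_to_K (𝕜 := ℂ) (vv k x)
    rw [h] at this
    have h4 : ((‖vv k x‖ ^ 2 : ℝ) : ℂ) = ((1 : ℝ) : ℂ) := by
      push_cast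
      exact this.symm
    exact Complex.ofReal_injective h4
  have h3 : 0 ≤ ‖vv k x‖ := norm_nonneg _
  nlinarith

theorem vv_orthonormal (k : Fin 4) : Orthonormal ℂ (vv k) := by
  refine ⟨vv_norm k, ?_⟩
  intro x x' hne
  rw [vv_inner]
  simp [hne]

/-- The isometries `V_k`. -/
def V (k : Fin 4) : L2 XPt →L[ℂ] L2 YPt :=
  ((vv_orthonormal k).orthogonalFamily.linearIsometry).toContinuousLinearMap

theorem V_e (k : Fin 4) (x : XPt) : V k (e x) = vv k x := by
  unfold V e
  simp only [LinearIsometry.coe_toContinuousLinearMap]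
  rw [OrthogonalFamily.linearIsometry_apply_single]
  simp

theorem Vadj_V (k l : Fin 4) :
    (ContinuousLinearMap.adjoint (V k)).comp (V l) = if k = l then ContinuousLinearMap.id ℂ _ else 0 := by
  apply ext_entries
  intro y x
  rw [ContinuousLinearMap.comp_apply, ContinuousLinearMap.adjoint_inner_right, V_e, V_e, vv_inner]
  by_cases h : k = l
  · subst h
    simp only [and_true, if_true, ContinuousLinearMap.id_apply]
    rw [inner_e, e_apply]
  · simp [h]

theorem Vadj_e (k : Fin 4) (y : YPt) :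
    ContinuousLinearMap.adjoint (V k) (e y) = ((cf y k : ℝ) : ℂ) • e y.x := by
  apply lp.ext
  funext x
  rw [← inner_e, ContinuousLinearMap.adjoint_inner_right, V_e, ← inner_conj_symm, inner_e, vv_apply]
  rw [lp.coeFn_smul, Pi.smul_apply, e_apply]
  by_cases h : y.x = x
  · subst h
    simp
  · have : x ≠ y.x := fun hh => h hh.symm
    simp [h, this]

/-- The (continuous) map underlying the embedding. -/
def phi0 (T : L2 XPt →L[ℂ] L2 XPt) : L2 YPt →L[ℂ] L2 YPt :=
  ∑ k : Fin 4, ((V k).comp T).comp (ContinuousLinearMap.adjoint (V k))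

theorem phi0_entry (T : L2 XPt →L[ℂ] L2 XPt) (y z : YPt) :
    inner ℂ (e y) (phi0 T (e z)) =
      ((nf y.x * nf z.x * (ip y z : ℝ) : ℝ) : ℂ) * inner ℂ (e y.x) (T (e z.x)) := by
  unfold phi0
  rw [_root_.sum_apply, inner_sum]
  rw [← cf_ip]
  push_cast
  rw [Finset.sum_mul]
  refine Finset.sum_congr rfl fun k _ => ?_
  change inner ℂ (e y) ((V k) (T (ContinuousLinearMap.adjoint (V k) (e z)))) = _
  rw [Vadj_e, ← ContinuousLinearMap.adjoint_inner_left, Vadj_e, map_smul, inner_smul_left,
    inner_smul_right, Complex.conj_ofReal, mul_assoc]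

theorem phi0_one : phi0 1 = 1 := by
  apply ext_entries
  intro y z
  rw [phi0_entry]
  rw [one_apply_eq_self, one_apply_eq_self, inner_e, inner_e, e_apply,
    e_apply]
  by_cases h : y.x = z.x
  · obtain ⟨x, a⟩ := y
    obtain ⟨x', b⟩ := z
    simp only at h
    subst h
    have := cf_orth x a b
    rw [cf_ip] at this
    simp only at this
    rw [this]
    by_cases hab : a = b <;> simp [hab]
  · have h' : y ≠ z := fun hh => h (by rw [hh])
    simp [h, h']

theorem phi0_mul (S T : L2 XPt →L[ℂ] L2 XPt) : phi0 (S * T) = phi0 S * phi0 T := by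
  unfold phi0
  rw [Finset.sum_mul_sum]
  refine Finset.sum_congr rfl fun k _ => ?_
  have : ∀ l : Fin 4, (((V k).comp S).comp (ContinuousLinearMap.adjoint (V k))) *
      (((V l).comp T).comp (ContinuousLinearMap.adjoint (V l))) =
      if k = l then ((V k).comp (S * T)).comp (ContinuousLinearMap.adjoint (V k)) else 0 := by
    intro l
    have h1 : (((V k).comp S).comp (ContinuousLinearMap.adjoint (V k))) *
      (((V l).comp T).comp (ContinuousLinearMap.adjoint (V l))) =
      (((V k).comp S).comp (((ContinuousLinearMap.adjoint (V k)).comp (V l)).comp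
        (T.comp (ContinuousLinearMap.adjoint (V l))))) := rfl
    rw [h1, Vadj_V]
    by_cases h : k = l
    · subst h
      simp only [if_true]
      rfl
    · simp [h]
  rw [Finset.sum_congr rfl fun l _ => this l]
  simp

theorem phi0_adj (T : L2 XPt →L[ℂ] L2 XPt) : phi0 (star T) = star (phi0 T) := by
  unfold phi0
  rw [star_sum]
  refine Finset.sum_congr rfl fun k _ => ?_
  rw [ContinuousLinearMap.star_eq_adjoint, ContinuousLinearMap.star_eq_adjoint,
    ContinuousLinearMap.adjoint_comp, ContinuousLinearMap.adjoint_comp,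
    ContinuousLinearMap.adjoint_adjoint]
  rfl

/-- The embedding of the full operator algebras. -/
def phi : (L2 XPt →L[ℂ] L2 XPt) →⋆ₐ[ℂ] (L2 YPt →L[ℂ] L2 YPt) where
  toFun := phi0
  map_one' := phi0_one
  map_mul' := phi0_mul
  map_zero' := by simp [phi0]
  map_add' S T := by
    unfold phi0
    rw [← Finset.sum_add_distrib]
    refine Finset.sum_congr rfl fun k _ => ?_
    rw [ContinuousLinearMap.comp_add, ContinuousLinearMap.add_comp]
  commutes' r := by
    have h : (algebraMap ℂ (L2 XPt →L[ℂ] L2 XPt)) r = r • 1 := Algebra.algebraMap_eq_smul_one r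
    have h' : (algebraMap ℂ (L2 YPt →L[ℂ] L2 YPt)) r = r • 1 := Algebra.algebraMap_eq_smul_one r
    rw [h, h', ← phi0_one]
    unfold phi0
    rw [Finset.smul_sum]
    refine Finset.sum_congr rfl fun k _ => ?_
    rw [ContinuousLinearMap.comp_smul, ContinuousLinearMap.smul_comp]
  map_star' := phi0_adj

theorem phi_injective : Function.Injective phi := by
  intro S T h
  have h0 : phi0 S = phi0 T := h
  apply ext_entries
  intro x x'
  have hS : ∀ T : L2 XPt →L[ℂ] L2 XPt,
      ((ContinuousLinearMap.adjoint (V 0)).comp (phi0 T)).comp (V 0) = T := by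
    intro T
    unfold phi0
    rw [ContinuousLinearMap.comp_finsetSum, ContinuousLinearMap.finsetSum_comp]
    rw [Finset.sum_eq_single (0 : Fin 4)]
    · have h1 : ((ContinuousLinearMap.adjoint (V 0)).comp (((V 0).comp T).comp
          (ContinuousLinearMap.adjoint (V 0)))).comp (V 0) =
          (((ContinuousLinearMap.adjoint (V 0)).comp (V 0)).comp T).comp
            ((ContinuousLinearMap.adjoint (V 0)).comp (V 0)) := rfl
      rw [h1, Vadj_V]
      simp
    · intro k _ hk
      have h1 : ((ContinuousLinearMap.adjoint (V 0)).comp (((V k).comp T).comp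
          (ContinuousLinearMap.adjoint (V k)))).comp (V 0) =
          (((ContinuousLinearMap.adjoint (V 0)).comp (V k)).comp T).comp
            ((ContinuousLinearMap.adjoint (V k)).comp (V 0)) := rfl
      rw [h1, Vadj_V, Vadj_V]
      simp [hk]
    · simp
  rw [← hS S, ← hS T, h0]

theorem phi_continuous : Continuous phi := by
  have : (phi : (L2 XPt →L[ℂ] L2 XPt) → (L2 YPt →L[ℂ] L2 YPt)) = phi0 := rfl
  rw [this]
  unfold phi0
  fun_prop

/-- Operators of finite propagation. -/
def FP (X : Type) [MetricSpace X] : Set (L2 X →L[ℂ] L2 X) :=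
  {a | ∃ r : ℝ, ∀ x x' : X, r < dist x x' →
    inner ℂ (lp.single 2 x (1 : ℂ) : lp (fun _ : X => ℂ) 2)
      (a (lp.single 2 x' (1 : ℂ) : lp (fun _ : X => ℂ) 2)) = 0}

theorem phi_FP {T : L2 XPt →L[ℂ] L2 XPt} (hT : T ∈ FP XPt) : phi T ∈ FP YPt := by
  obtain ⟨r, hr⟩ := hT
  refine ⟨r, fun y z hyz => ?_⟩
  have h := phi0_entry T y z
  change inner ℂ (e y) (phi0 T (e z)) = 0
  rw [h]
  by_cases hip : ip y z = 0
  · simp [hip]
  · have h1 := cdY_le_cdX y z hip
    have h2 : dist y z ≤ dist y.x z.x := by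
      rw [dist_Y, dist_X]
      exact_mod_cast h1
    have h3 := hr y.x z.x (lt_of_lt_of_le hyz h2)
    rw [h3, mul_zero]

theorem exists_emb : ∃ φ : ↥((StarAlgebra.adjoin ℂ (FP XPt)).topologicalClosure) →⋆ₙₐ[ℂ]
    ↥((StarAlgebra.adjoin ℂ (FP YPt)).topologicalClosure), Function.Injective φ := by
  have hmem : ∀ a ∈ (StarAlgebra.adjoin ℂ (FP XPt)).topologicalClosure,
      phi a ∈ (StarAlgebra.adjoin ℂ (FP YPt)).topologicalClosure := by
    intro a ha
    have h1 : StarAlgebra.adjoin ℂ (FP XPt) ≤ (StarAlgebra.adjoin ℂ (FP YPt)).comap phi := by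
      apply StarAlgebra.adjoin_le
      intro T hT
      exact StarAlgebra.subset_adjoin ℂ _ (phi_FP hT)
    have ha' : a ∈ closure ((StarAlgebra.adjoin ℂ (FP XPt) : StarSubalgebra ℂ _) : Set _) := ha
    have := map_mem_closure phi_continuous ha'
      (t := ((StarAlgebra.adjoin ℂ (FP YPt) : StarSubalgebra ℂ _) : Set _)) (fun x hx => h1 hx)
    exact this
  let ψ : ↥((StarAlgebra.adjoin ℂ (FP XPt)).topologicalClosure) →⋆ₐ[ℂ]
    ↥((StarAlgebra.adjoin ℂ (FP YPt)).topologicalClosure) :=
    (phi.comp (StarSubalgebra.subtype _)).codRestrict _ (fun x => hmem x.1 x.2)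
  refine ⟨ψ.toNonUnitalStarAlgHom, ?_⟩
  intro x y hxy
  apply Subtype.ext
  apply phi_injective
  exact congrArg Subtype.val hxy

end

end Pool.Agent.W_MP_42dd51_an
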