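import Pool.Agent.W_MP_42dd51_an.Count

set_option autoImplicit false
open scoped Classical

namespace Pool.Agent.W_MP_42dd51_an

open Finset

/-- Upper bound on balls that contain no point of type `(n,i,j)`. -/
theorem upper_count (N L n : ℕ) (hN : 1 ≤ N) (hL : 1 ≤ L) (hn : 1000 * L * N ≤ n) (i j : Fin 3)
    (x : XPt) (S : Finset XPt) (hS : ∀ y ∈ S, gX.cd x y ≤ L * (2 * K n i j ^ 2))
    (hno : ∀ y ∈ S, ¬ (y.n = n ∧ y.i = i ∧ y.j = j)) :
    4 * N * S.card < K n i j ^ 3 := by
  set P := K n i j with hP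
  set r := L * (2 * P ^ 2) with hr
  have hLN : 1 ≤ L * N := Nat.one_le_iff_ne_zero.2 (by positivity)
  have hPbig : ∀ m ≥ n, ∀ i' j' : Fin 3, 1000 * L * N < K m i' j' := by
    intro m hm i' j'
    have h1 : 10 * m + (3 * i'.val + j'.val) < K m i' j' := lt_scale _
    omega
  have hP1 := hPbig n le_rfl i j
  rw [← hP] at hP1
  have hPpos : 0 < P := K_pos n i j
  -- r is smaller than ell n
  have hP8 : P ^ 8 ≤ ell n := (Nat.pow_le_pow_left (K_le n i j) 8).trans (scale8_le_ell n)
  have hLP : 1000 * L ≤ P := by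
    calc 1000 * L = 1000 * L * 1 := by ring
      _ ≤ 1000 * L * N := Nat.mul_le_mul_left _ hN
      _ ≤ P := hP1.le
  have hNP : 1000 * N ≤ P := by
    calc 1000 * N = 1000 * 1 * N := by ring
      _ ≤ 1000 * L * N := by gcongr
      _ ≤ P := hP1.le
  have hr3 : 5 * r < P ^ 3 := by
    have h1 : 5 * r = 10 * L * P ^ 2 := by rw [hr]; ring
    rw [h1]
    calc 10 * L * P ^ 2 < P * P ^ 2 := by
          apply Nat.mul_lt_mul_of_pos_right _ (by positivity)
          omega
      _ = P ^ 3 := by ring
  have hrell : r < ell n := by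
    have h1 : P ^ 3 ≤ P ^ 8 := Nat.pow_le_pow_right hPpos (by norm_num)
    omega
  rcases lt_or_ge x.n n with hx | hx
  · -- lower levels
    obtain ⟨n', rfl⟩ : ∃ n', n = n' + 1 := ⟨n - 1, by omega⟩
    have h1 : ∀ y ∈ S, y.n ≤ n' := by
      intro y hy
      rcases (gX.cd_le_iff x y _).1 (hS y hy) with h | h
      · have := (near_window h).2.2
        omega
      · have h2 : ell x.n + ell y.n ≤ r := h
        by_contra hc
        have h3 : ell (n' + 1) ≤ ell y.n := ell_mono (by omega)
        omega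
    have h2 := card_levels h1
    have h3 : ell n' ^ 8 ≤ P := scale_gap (by omega)
    have h4 := n_lt_ell n'
    have h5 : n' + 1 ≤ ell n' := h4
    have h6 : 4 ≤ ell n' := by
      have : 10 * n' + 9 < ell n' := lt_scale _
      omega
    have h7 : S.card ≤ P := by
      calc S.card ≤ 9 * (n' + 1) * (ell n' + 1) ^ 2 := h2
        _ ≤ 9 * (ell n') * (2 * ell n') ^ 2 := by gcongr; omega
        _ = 36 * ell n' ^ 3 := by ring
        _ ≤ 4 ^ 5 * ell n' ^ 3 := by gcongr; norm_num
        _ ≤ ell n' ^ 5 * ell n' ^ 3 := by gcongr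
        _ = ell n' ^ 8 := by ring
        _ ≤ P := h3
    calc 4 * N * S.card ≤ 4 * N * P := Nat.mul_le_mul_left _ h7
      _ < P * P := by
          apply Nat.mul_lt_mul_of_pos_right _ hPpos
          omega
      _ ≤ P * P * P := Nat.le_mul_of_pos_right _ hPpos
      _ = P ^ 3 := by ring
  · -- same or higher level
    have hnear : ∀ y ∈ S, Near XAdj r x y := by
      intro y hy
      apply gX.near_of_cd_le (hS y hy)
      left
      exact lt_of_lt_of_le hrell (ell_mono hx)
    -- bound each type
    obtain ⟨c, hc1, hc2⟩ : ∃ c, 36 * N * c < P ^ 3 ∧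
        ∀ i' j' : Fin 3, (S.filter (fun y => (y.i, y.j) = (i', j'))).card ≤ c := by
      refine ⟨(P ^ 3 - 1) / (36 * N), ?_, ?_⟩
      · have h1 := Nat.mul_div_le (P ^ 3 - 1) (36 * N)
        have h2 : 0 < P ^ 3 := by positivity
        omega
      · intro i' j'
        rw [Nat.le_div_iff_mul_le (by positivity)]
        apply Nat.le_sub_one_of_lt
        set T := S.filter (fun y => (y.i, y.j) = (i', j')) with hT
        have hT1 : ∀ y ∈ T, Near XAdj r x y ∧ y.i = i' ∧ y.j = j' := by
          intro y hy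
          rw [hT, mem_filter, Prod.mk.injEq] at hy
          exact ⟨hnear y hy.1, hy.2⟩
        rcases lt_trichotomy (10 * x.n + (3 * i'.val + j'.val)) (10 * n + (3 * i.val + j.val))
          with hlt | heq | hgt
        · -- lower type
          have h1 := card_low hT1
          have h2 : K x.n i' j' ^ 8 ≤ P := scale_gap hlt
          set Q := K x.n i' j' with hQ
          have h3 := hPbig x.n hx i' j'
          rw [← hQ] at h3
          have hQpos : 0 < Q := K_pos _ _ _
          have h4 : 1 ≤ P ^ 2 := Nat.one_le_pow _ _ hPpos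
          have h5 : 1 ≤ Q ^ 2 := Nat.one_le_pow _ _ hQpos
          have h6 : 4 * r + 3 ≤ 11 * L * P ^ 2 := by
            have : 4 * r = 8 * (L * P ^ 2) := by rw [hr]; ring
            have h7 : 1 ≤ L * P ^ 2 := Nat.one_le_iff_ne_zero.2 (by positivity)
            have h8 : 11 * L * P ^ 2 = 11 * (L * P ^ 2) := by ring
            omega
          calc T.card * (36 * N) ≤ ((4 * r + 3) * (Q ^ 2 + 1)) * (36 * N) :=
                Nat.mul_le_mul_right _ h1
            _ ≤ ((11 * L * P ^ 2) * (Q ^ 2 + Q ^ 2)) * (36 * N) := by gcongr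
            _ = (792 * L * N) * Q ^ 2 * P ^ 2 := by ring
            _ ≤ (1000 * L * N) * Q ^ 2 * P ^ 2 := by gcongr; norm_num
            _ < Q * Q ^ 2 * P ^ 2 := by
                apply Nat.mul_lt_mul_of_pos_right _ (by positivity)
                exact Nat.mul_lt_mul_of_pos_right h3 (by positivity)
            _ = Q ^ 3 * P ^ 2 := by ring
            _ ≤ Q ^ 8 * P ^ 2 := by
                apply Nat.mul_le_mul_right
                exact Nat.pow_le_pow_right hQpos (by norm_num)
            _ ≤ P * P ^ 2 := Nat.mul_le_mul_right _ h2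
            _ = P ^ 3 := by ring
        · -- same type: T is empty
          have h1 : T = ∅ := by
            rw [Finset.eq_empty_iff_forall_notMem]
            intro y hy
            obtain ⟨g1, g2, g3⟩ := hT1 y hy
            have g4 := (near_window g1).2.2
            have b1 := i.isLt
            have b2 := j.isLt
            have b3 := i'.isLt
            have b4 := j'.isLt
            have e1 : x.n = n := by omega
            have e2 : 3 * i'.val + j'.val = 3 * i.val + j.val := by omega
            have e3 : i'.val = i.val := by omega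
            have e4 : j'.val = j.val := by omega
            apply hno y (mem_filter.1 hy).1
            refine ⟨by omega, ?_, ?_⟩
            · rw [g2]; exact Fin.ext e3
            · rw [g3]; exact Fin.ext e4
          rw [h1]
          simp only [card_empty, zero_mul]
          positivity
        · -- higher type
          have h2 : P ^ 8 ≤ K x.n i' j' := scale_gap hgt
          have h3 : P ^ 3 ≤ P ^ 8 := Nat.pow_le_pow_right hPpos (by norm_num)
          have h1 := card_high hT1 (by
            have : 1 ≤ P ^ 2 := Nat.one_le_pow _ _ hPpos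
            have h7 : 1 ≤ L * (2 * P ^ 2) := Nat.one_le_iff_ne_zero.2 (by positivity)
            omega)
          calc T.card * (36 * N) ≤ (10 * r + 6) * (36 * N) := Nat.mul_le_mul_right _ h1
            _ ≤ (26 * L * P ^ 2) * (36 * N) := by
                apply Nat.mul_le_mul_right
                have : 10 * r = 20 * (L * P ^ 2) := by rw [hr]; ring
                have h7 : 1 ≤ L * P ^ 2 := Nat.one_le_iff_ne_zero.2 (by positivity)
                have h8 : 26 * L * P ^ 2 = 26 * (L * P ^ 2) := by ring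
                omega
            _ = (936 * L * N) * P ^ 2 := by ring
            _ ≤ (1000 * L * N) * P ^ 2 := by gcongr; norm_num
            _ < P * P ^ 2 := Nat.mul_lt_mul_of_pos_right hP1 (by positivity)
            _ = P ^ 3 := by ring
    have h1 := card_types c hc2
    calc 4 * N * S.card ≤ 4 * N * (c * 9) := Nat.mul_le_mul_left _ h1
      _ = 36 * N * c := by ring
      _ < P ^ 3 := hc1

section f
variable (f : XPt → YPt) (N L : ℕ)

/-- Lipschitz bound along paths. -/
theorem lip_near (hL : ∀ x x', gX.cd x x' ≤ 1 → gY.cd (f x) (f x') ≤ L) {r : ℕ} {x x' : XPt}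
    (h : Near XAdj r x x') : gY.cd (f x) (f x') ≤ L * r := by
  induction r generalizing x' with
  | zero =>
    cases h
    rw [gY.cd_self]
    exact Nat.zero_le _
  | succ r ih =>
    obtain ⟨z, hz, hzx⟩ := h
    have h1 := ih hz
    have h2 : gY.cd (f z) (f x') ≤ L := by
      apply hL
      rw [gX.cd_le_iff]
      left
      rcases hzx with rfl | hzx
      · exact Near.refl _ _
      · exact Near.of_adj hzx
    have h3 := gY.cd_triangle (f x) (f z) (f x')
    calc gY.cd (f x) (f x') ≤ L * r + L := by omega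
      _ = L * (r + 1) := by ring

/-- Rigidity: the image of a spine point of type `(n,i,j)` is near the edge `(n,i,j)`. -/
theorem near_type (hL1 : 1 ≤ L) (hN1 : 1 ≤ N)
    (hL : ∀ x x', gX.cd x x' ≤ 1 → gY.cd (f x) (f x') ≤ L)
    (hN : ∀ y, (f ⁻¹' {y}).encard ≤ (N : ℕ∞)) (n : ℕ) (hn : 1000 * L * N ≤ n) (i j : Fin 3)
    (k : ℕ) (hk : k ≤ ell n) :
    ∃ z : XPt, z.n = n ∧ z.i = i ∧ z.j = j ∧
      gX.cd (f (sp n i j k hk)).x z ≤ L * (2 * K n i j ^ 2) := by
  by_contra hcon
  push Not at hcon
  obtain ⟨S, hS, hScard⟩ := lower_count n i j k hk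
  set x := sp n i j k hk with hx
  set T := (S.image f).image YPt.x with hT
  have h1 : S.card ≤ N * (S.image f).card := by
    apply Finset.card_le_mul_card_image
    intro y _
    have h2 : ((S.filter (fun a => f a = y) : Finset XPt) : Set XPt).encard ≤ (N : ℕ∞) := by
      refine le_trans (Set.encard_le_encard ?_) (hN y)
      intro z hz
      exact (mem_filter.1 (mem_coe.1 hz)).2
    rw [Set.encard_coe_eq_coe_finsetCard] at h2
    exact_mod_cast h2
  have h2 : (S.image f).card ≤ 4 * T.card := card_fiberY _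
  have h3 : 4 * N * T.card < K n i j ^ 3 := by
    apply upper_count N L n hN1 hL1 hn i j (f x).x
    · intro y hy
      rw [hT] at hy
      obtain ⟨w, hw, rfl⟩ := mem_image.1 hy
      obtain ⟨v, hv, rfl⟩ := mem_image.1 hw
      exact (cdX_le_cdY _ _).trans (lip_near f L hL (hS v hv))
    · rintro y hy ⟨g1, g2, g3⟩
      rw [hT] at hy
      obtain ⟨w, hw, rfl⟩ := mem_image.1 hy
      obtain ⟨v, hv, rfl⟩ := mem_image.1 hw
      have h4 := hcon (f v).x g1 g2 g3
      have h5 := (cdX_le_cdY _ _).trans (lip_near f L hL (hS v hv))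
      omega
  have h4 : S.card ≤ 4 * N * T.card := by
    calc S.card ≤ N * (S.image f).card := h1
      _ ≤ N * (4 * T.card) := Nat.mul_le_mul_left _ h2
      _ = 4 * N * T.card := by ring
  omega

end f

/-! ### Signs -/

/-- Distance-like function from the edge `(i,j)`. -/
def w (i j : Fin 3) (x : XPt) : ℕ :=
  if x.i = i then (if x.j = j then 0 else x.k) else (if x.j = j then ell x.n - x.k else ell x.n)

theorem w_lip (i j : Fin 3) (x y : XPt) (h : XAdj x y) : w i j y ≤ w i j x + 1 := by
  obtain ⟨hn, h⟩ := h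
  have hkx := x.hk
  have hky := y.hk
  unfold w
  rw [← hn] at *
  rcases h with ⟨h1, h2, h3, h4, h5⟩ | ⟨h1, h2, h3, h4⟩ | ⟨h1, h2, h3, h4, h5, h6⟩ |
    ⟨h1, h2, h3, h4, h5, h6⟩
  · rw [← h1, ← h2]
    split_ifs <;> omega
  · rw [← h1, ← h2]
    split_ifs <;> omega
  · rw [← h1]
    split_ifs <;> omega
  · rw [← h1]
    split_ifs <;> omega

/-- Points whose context contains the observable `(i,j)`. -/
def NB (i j : Fin 3) (x : XPt) : Prop := (x.i = i ∧ inRow x) ∨ (x.j = j ∧ ¬ inRow x)

theorem NB_of_w (i j : Fin 3) (x : XPt) (h : 2 * w i j x < ell x.n) : NB i j x := by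
  have hk := x.hk
  unfold w at h
  unfold NB inRow
  split_ifs at h with h1 h2 h2
  · by_cases h3 : 2 * x.k < ell x.n
    · exact Or.inl ⟨h1, h3⟩
    · exact Or.inr ⟨h2, h3⟩
  · exact Or.inl ⟨h1, h⟩
  · exact Or.inr ⟨h2, by omega⟩
  · omega

/-- The value of the observable `(i,j)`. -/
def sgn (i j : Fin 3) (y : YPt) : Bool := if inRow y.x then rowsign j y.a else colsign i j y.a

theorem sgn_adj (i j : Fin 3) (y z : YPt) (h : ip y z ≠ 0) (hy : NB i j y.x) (hz : NB i j z.x) :
    sgn i j y = sgn i j z := by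
  have hrow : ∀ x : XPt, inRow x → NB i j x → x.i = i := by
    intro x hx hN
    rcases hN with hN | hN
    · exact hN.1
    · exact absurd hx hN.2
  have hcol : ∀ x : XPt, ¬ inRow x → NB i j x → x.j = j := by
    intro x hx hN
    rcases hN with hN | hN
    · exact absurd hN.2 hx
    · exact hN.1
  unfold ip at h
  unfold sgn
  by_cases h1 : inRow y.x <;> by_cases h2 : inRow z.x
  · have e1 : ∀ a k, M y.x a k = rowM i a k := by
      intro a k; unfold M; rw [if_pos h1, hrow _ h1 hy]
    have e2 : ∀ a k, M z.x a k = rowM i a k := by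
      intro a k; unfold M; rw [if_pos h2, hrow _ h2 hz]
    simp only [e1, e2] at h
    rw [row_orth] at h
    have h3 : y.a = z.a := by
      by_contra hne
      rw [if_neg hne] at h
      exact h rfl
    rw [if_pos h1, if_pos h2, h3]
  · have e1 : ∀ a k, M y.x a k = rowM i a k := by
      intro a k; unfold M; rw [if_pos h1, hrow _ h1 hy]
    have e2 : ∀ a k, M z.x a k = colM j a k := by
      intro a k; unfold M; rw [if_neg h2, hcol _ h2 hz]
    simp only [e1, e2] at h
    rw [if_pos h1, if_neg h2]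
    exact sign_compat i j _ _ h
  · have e1 : ∀ a k, M y.x a k = colM j a k := by
      intro a k; unfold M; rw [if_neg h1, hcol _ h1 hy]
    have e2 : ∀ a k, M z.x a k = rowM i a k := by
      intro a k; unfold M; rw [if_pos h2, hrow _ h2 hz]
    simp only [e1, e2] at h
    rw [if_neg h1, if_pos h2]
    symm
    apply sign_compat i j _ _
    intro h0
    apply h
    rw [← h0]
    exact Finset.sum_congr rfl (fun k _ => mul_comm _ _)
  · have e1 : ∀ a k, M y.x a k = colM j a k := by
      intro a k; unfold M; rw [if_neg h1, hcol _ h1 hy]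
    have e2 : ∀ a k, M z.x a k = colM j a k := by
      intro a k; unfold M; rw [if_neg h2, hcol _ h2 hz]
    simp only [e1, e2] at h
    rw [col_orth] at h
    have h3 : y.a = z.a := by
      by_contra hne
      rw [if_neg hne] at h
      exact h rfl
    rw [if_neg h1, if_neg h2, h3]

theorem sgn_near (i j : Fin 3) {r : ℕ} {y z : YPt} (h : Near YAdj r y z)
    (hw : 2 * (w i j y.x + r) < ell y.x.n) : sgn i j y = sgn i j z ∧ NB i j z.x := by
  induction r generalizing z with
  | zero =>
    cases h
    exact ⟨rfl, NB_of_w i j _ (by omega)⟩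
  | succ r ih =>
    obtain ⟨u, hu, huz⟩ := h
    obtain ⟨h1, h2⟩ := ih hu (by omega)
    rcases huz with rfl | huz
    · exact ⟨h1, h2⟩
    · have h3 : Near XAdj (r + 1) y.x z.x := near_X_of_Y ⟨u, hu, Or.inr huz⟩
      have h4 := h3.lip (w i j) (w_lip i j)
      have h5 := (near_window h3).2.2
      have h6 : NB i j z.x := NB_of_w i j _ (by rw [h5]; omega)
      exact ⟨h1.trans (sgn_adj i j u z huz.2 h2 h6), h6⟩

/-- No uniformly finite-to-one coarse map. -/
theorem no_map (f : XPt → YPt) (N L : ℕ) (hL1 : 1 ≤ L) (hN1 : 1 ≤ N)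
    (hL : ∀ x x', gX.cd x x' ≤ 1 → gY.cd (f x) (f x') ≤ L)
    (hN : ∀ y, (f ⁻¹' {y}).encard ≤ (N : ℕ∞)) : False := by
  obtain ⟨n, hn⟩ : ∃ n, n = 1000 * L * N := ⟨_, rfl⟩
  have hn' : 1000 * L * N ≤ n := hn.ge
  -- key step
  have key : ∀ (i j : Fin 3) (k : ℕ) (hk : k ≤ ell n) (x' : XPt),
      Near XAdj 1 (sp n i j k hk) x' →
      sgn i j (f (sp n i j k hk)) = sgn i j (f x') ∧ NB i j (f x').x := by
    intro i j k hk x' hx'
    obtain ⟨z, hz1, hz2, hz3, hz4⟩ := near_type f N L hL1 hN1 hL hN n hn' i j k hk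
    have hP1 : 10 * n + (3 * i.val + j.val) < K n i j := lt_scale _
    set P := K n i j with hP
    have hPpos : 0 < P := K_pos n i j
    have hP8 : P ^ 8 ≤ ell n := (Nat.pow_le_pow_left (K_le n i j) 8).trans (scale8_le_ell n)
    have hLP : 1000 * L ≤ P := by
      calc 1000 * L = 1000 * L * 1 := by ring
        _ ≤ 1000 * L * N := Nat.mul_le_mul_left _ hN1
        _ ≤ P := by omega
    have h6 : 2 * (L * (2 * P ^ 2) + L) < ell n := by
      have h7 : 1 ≤ P ^ 2 := Nat.one_le_pow _ _ hPpos
      calc 2 * (L * (2 * P ^ 2) + L) ≤ 2 * (L * (2 * P ^ 2) + L * P ^ 2) := by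
            have : L ≤ L * P ^ 2 := Nat.le_mul_of_pos_right _ h7
            omega
        _ = 6 * L * P ^ 2 := by ring
        _ < P * P ^ 2 := by
            apply Nat.mul_lt_mul_of_pos_right _ (by positivity)
            omega
        _ = P ^ 3 := by ring
        _ ≤ P ^ 8 := Nat.pow_le_pow_right hPpos (by norm_num)
        _ ≤ ell n := hP8
    have hDz : gX.D z = ell n := by show ell z.n = ell n; rw [hz1]
    have h7 : Near XAdj (L * (2 * P ^ 2)) (f (sp n i j k hk)).x z :=
      gX.near_of_cd_le hz4 (Or.inr (by rw [hDz]; omega))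
    have h8 : (f (sp n i j k hk)).x.n = n := by rw [← (near_window h7).2.2, hz1]
    have hwz : w i j z = 0 := by unfold w; rw [if_pos hz2, if_pos hz3]
    have h9 : w i j (f (sp n i j k hk)).x ≤ L * (2 * P ^ 2) := by
      have := (h7.symm (fun _ _ h => h.symm)).lip (w i j) (w_lip i j)
      omega
    have h10 : gY.cd (f (sp n i j k hk)) (f x') ≤ L := by
      apply hL
      rw [gX.cd_le_iff]
      exact Or.inl hx'
    have hDf : gY.D (f (sp n i j k hk)) = ell n := by
      show ell (f (sp n i j k hk)).x.n = ell n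
      rw [h8]
    have h11 : Near YAdj L (f (sp n i j k hk)) (f x') :=
      gY.near_of_cd_le h10 (Or.inl (by rw [hDf]; omega))
    apply sgn_near i j h11
    rw [h8]
    omega
  -- constancy along the spine
  have spine : ∀ (i j : Fin 3) (k : ℕ) (hk : k ≤ ell n),
      sgn i j (f (sp n i j 0 (Nat.zero_le _))) = sgn i j (f (sp n i j k hk)) := by
    intro i j k hk
    induction k with
    | zero => rfl
    | succ k ih =>
      rw [ih (by omega)]
      exact (key i j k (by omega) _ (near_spine n i j k 1 _ hk)).1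
  -- base points
  have hrow : ∀ i j : Fin 3, Near XAdj 1 (sp n i j 0 (Nat.zero_le _)) (sp n i 0 0 (Nat.zero_le _)) := by
    intro i j
    by_cases h : j = 0
    · subst h
      exact Near.refl _ _
    · exact Near.of_adj ⟨rfl, Or.inr (Or.inr (Or.inl ⟨rfl, h, rfl, rfl, rfl, rfl⟩))⟩
  have hcol : ∀ i j : Fin 3, Near XAdj 1 (sp n i j (ell n) le_rfl) (sp n 0 j (ell n) le_rfl) := by
    intro i j
    by_cases h : i = 0
    · subst h
      exact Near.refl _ _
    · exact Near.of_adj ⟨rfl, Or.inr (Or.inr (Or.inr ⟨rfl, h, rfl, rfl, rfl, rfl⟩))⟩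
  have hrow' : ∀ i : Fin 3, inRow (f (sp n i 0 0 (Nat.zero_le _))).x := by
    intro i
    by_contra hc
    have h0 := (key i 0 0 (Nat.zero_le _) _ (hrow i 0)).2
    have h1 := (key i 1 0 (Nat.zero_le _) _ (hrow i 1)).2
    rcases h0 with h0 | h0
    · exact hc h0.2
    rcases h1 with h1 | h1
    · exact hc h1.2
    have := h0.1.symm.trans h1.1
    exact absurd this (by decide)
  have hcol' : ∀ j : Fin 3, ¬ inRow (f (sp n 0 j (ell n) le_rfl)).x := by
    intro j hc
    have h0 := (key 0 j (ell n) le_rfl _ (hcol 0 j)).2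
    have h1 := (key 1 j (ell n) le_rfl _ (hcol 1 j)).2
    rcases h0 with h0 | h0
    · rcases h1 with h1 | h1
      · have := h0.1.symm.trans h1.1
        exact absurd this (by decide)
      · exact h1.2 hc
    · exact h0.2 hc
  apply magic (fun i => (f (sp n i 0 0 (Nat.zero_le _))).a) (fun j => (f (sp n 0 j (ell n) le_rfl)).a)
  intro i j
  have h1 := (key i j 0 (Nat.zero_le _) _ (hrow i j)).1
  have h2 := (key i j (ell n) le_rfl _ (hcol i j)).1
  have h3 := spine i j (ell n) le_rfl
  have h4 : sgn i j (f (sp n i 0 0 (Nat.zero_le _))) = sgn i j (f (sp n 0 j (ell n) le_rfl)) := by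
    rw [← h1, ← h2, h3]
  unfold sgn at h4
  rw [if_pos (hrow' i), if_neg (hcol' j)] at h4
  exact h4

theorem no_coarse_map : ¬ ∃ f : XPt → YPt,
    (∀ r : ℝ, 0 < r → ∃ s : ℝ, 0 < s ∧ ∀ x x' : XPt, dist x x' ≤ r → dist (f x) (f x') ≤ s) ∧
    ∃ N : ℕ, ∀ y : YPt, (f ⁻¹' {y}).encard ≤ (N : ℕ∞) := by
  rintro ⟨f, hf, N, hN⟩
  obtain ⟨s, hs, hs'⟩ := hf 1 one_pos
  refine no_map f (N + 1) ⌈s⌉₊ (Nat.one_le_ceil_iff.2 hs) (by omega) ?_ ?_
  · intro x x' h
    have h1 : dist x x' ≤ 1 := by
      rw [dist_X]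
      exact_mod_cast h
    have h2 := hs' x x' h1
    rw [dist_Y] at h2
    exact_mod_cast h2.trans (Nat.le_ceil s)
  · intro y
    refine (hN y).trans ?_
    exact_mod_cast Nat.le_succ N

end Pool.Agent.W_MP_42dd51_an
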