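import Mathlib

set_option autoImplicit false

namespace Pool.Agent.W_MP_42dd51_an

/-- `Near adj r x y`: there is a path of length at most `r` from `x` to `y`. -/
def Near {V : Type} (adj : V → V → Prop) : ℕ → V → V → Prop
  | 0, x, y => x = y
  | r + 1, x, y => ∃ z, Near adj r x z ∧ (z = y ∨ adj z y)

section near
variable {V : Type} {adj : V → V → Prop}

theorem Near.refl (r : ℕ) (x : V) : Near adj r x x := by
  induction r with
  | zero => rfl
  | succ r ih => exact ⟨x, ih, Or.inl rfl⟩

theorem Near.succ {r : ℕ} {x y : V} (h : Near adj r x y) : Near adj (r + 1) x y :=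
  ⟨y, h, Or.inl rfl⟩

theorem Near.mono {r s : ℕ} {x y : V} (h : Near adj r x y) (hrs : r ≤ s) : Near adj s x y := by
  induction hrs with
  | refl => exact h
  | step _ ih => exact ih.succ

theorem Near.trans {r s : ℕ} {x y z : V} (h : Near adj r x y) (h' : Near adj s y z) :
    Near adj (r + s) x z := by
  induction s generalizing z with
  | zero => cases h'; exact h
  | succ s ih =>
    obtain ⟨w, hw, hwz⟩ := h'
    exact ⟨w, ih hw, hwz⟩

theorem Near.of_adj {x y : V} (h : adj x y) : Near adj 1 x y := ⟨x, rfl, Or.inr h⟩

theorem Near.symm (hs : ∀ x y, adj x y → adj y x) {r : ℕ} {x y : V} (h : Near adj r x y) :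
    Near adj r y x := by
  induction r generalizing y with
  | zero => exact Eq.symm h
  | succ r ih =>
    obtain ⟨z, hz, hzy⟩ := h
    have h1 : Near adj 1 y z := by
      rcases hzy with rfl | hzy
      · exact Near.refl _ _
      · exact Near.of_adj (hs _ _ hzy)
    have := h1.trans (ih hz)
    rwa [Nat.add_comm] at this

/-- An invariant of adjacency is an invariant of `Near`. -/
theorem Near.invariant {α : Type} (f : V → α) (hf : ∀ x y, adj x y → f x = f y)
    {r : ℕ} {x y : V} (h : Near adj r x y) : f x = f y := by
  induction r generalizing y with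
  | zero => exact congrArg f h
  | succ r ih =>
    obtain ⟨z, hz, hzy⟩ := h
    rcases hzy with rfl | hzy
    · exact ih hz
    · exact (ih hz).trans (hf _ _ hzy)

/-- A function that increases by at most one along edges. -/
theorem Near.lip (f : V → ℕ) (hf : ∀ x y, adj x y → f y ≤ f x + 1)
    {r : ℕ} {x y : V} (h : Near adj r x y) : f y ≤ f x + r := by
  induction r generalizing y with
  | zero => cases h; simp
  | succ r ih =>
    obtain ⟨z, hz, hzy⟩ := h
    have := ih hz
    rcases hzy with rfl | hzy
    · omega
    · have := hf _ _ hzy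
      omega

end near

/-- A graph with a positive function `D`, constant along edges. -/
structure CG (V : Type) where
  adj : V → V → Prop
  symm : ∀ x y, adj x y → adj y x
  D : V → ℕ
  Dpos : ∀ x, 0 < D x
  Dadj : ∀ x y, adj x y → D x = D y

namespace CG
variable {V : Type} (g : CG V)

/-- The cone metric: path metric, cut at `D x + D y`. -/
noncomputable def cd (x y : V) : ℕ := sInf {r | Near g.adj r x y ∨ g.D x + g.D y ≤ r}

theorem cd_le_iff (x y : V) (r : ℕ) : g.cd x y ≤ r ↔ Near g.adj r x y ∨ g.D x + g.D y ≤ r := by
  constructor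
  · intro h
    have hm : g.cd x y ∈ {r | Near g.adj r x y ∨ g.D x + g.D y ≤ r} :=
      Nat.sInf_mem ⟨g.D x + g.D y, Or.inr le_rfl⟩
    rcases hm with hm | hm
    · exact Or.inl (hm.mono h)
    · exact Or.inr (hm.trans h)
  · intro h
    exact Nat.sInf_le h

theorem cd_self (x : V) : g.cd x x = 0 := by
  have : g.cd x x ≤ 0 := (g.cd_le_iff x x 0).2 (Or.inl rfl)
  omega

theorem cd_comm (x y : V) : g.cd x y = g.cd y x := by
  have key : ∀ x y, g.cd x y ≤ g.cd y x := by
    intro x y
    rw [g.cd_le_iff]
    rcases (g.cd_le_iff y x _).1 le_rfl with h | h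
    · exact Or.inl (h.symm g.symm)
    · exact Or.inr (by omega)
  exact le_antisymm (key x y) (key y x)

theorem cd_triangle (x y z : V) : g.cd x z ≤ g.cd x y + g.cd y z := by
  rw [g.cd_le_iff]
  rcases (g.cd_le_iff x y _).1 le_rfl with h | h <;>
  rcases (g.cd_le_iff y z _).1 le_rfl with h' | h'
  · exact Or.inl (h.trans h')
  · have := h.invariant g.D g.Dadj
    exact Or.inr (by omega)
  · have := h'.invariant g.D g.Dadj
    exact Or.inr (by omega)
  · exact Or.inr (by omega)

theorem eq_of_cd_eq_zero {x y : V} (h : g.cd x y = 0) : x = y := by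
  rcases (g.cd_le_iff x y 0).1 h.le with h | h
  · exact h
  · have := g.Dpos x
    omega

/-- The metric space structure. -/
@[reducible] noncomputable def metric : MetricSpace V where
  dist x y := (g.cd x y : ℝ)
  dist_self x := by simp [g.cd_self]
  dist_comm x y := by simp [g.cd_comm x y]
  dist_triangle x y z := by
    have := g.cd_triangle x y z
    exact_mod_cast this
  eq_of_dist_eq_zero {x y} h := by
    apply g.eq_of_cd_eq_zero
    exact_mod_cast h

theorem near_of_cd_le {x y : V} {r : ℕ} (h : g.cd x y ≤ r) (hD : r < g.D x ∨ r < g.D y) :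
    Near g.adj r x y := by
  rcases (g.cd_le_iff x y r).1 h with h | h
  · exact h
  · omega

end CG

end Pool.Agent.W_MP_42dd51_an
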