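import Pool.Agent.W_MP_42dd51_an.Space

set_option autoImplicit false
open scoped Classical

namespace Pool.Agent.W_MP_42dd51_an

open Finset

theorem near_window {r : ℕ} {x y : XPt} (h : Near XAdj r x y) :
    (y.k ≤ r ∨ ell y.n ≤ y.k + r ∨
      (y.i = x.i ∧ y.j = x.j ∧ y.k ≤ x.k + r ∧ x.k ≤ y.k + r)) ∧
    (y.h ≤ x.h + r ∧ x.h ≤ y.h + r) ∧ y.n = x.n := by
  induction r generalizing y with
  | zero =>
    cases h
    exact ⟨Or.inr (Or.inr ⟨rfl, rfl, le_rfl, le_rfl⟩), ⟨le_rfl, le_rfl⟩, rfl⟩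
  | succ r ih =>
    obtain ⟨z, hz, hzy⟩ := h
    obtain ⟨h1, ⟨h2, h3⟩, h4⟩ := ih hz
    rcases hzy with rfl | hzy
    · refine ⟨?_, ⟨by omega, by omega⟩, h4⟩
      rcases h1 with h1 | h1 | ⟨h5, h6, h7, h8⟩
      · exact Or.inl (by omega)
      · exact Or.inr (Or.inl (by omega))
      · exact Or.inr (Or.inr ⟨h5, h6, by omega, by omega⟩)
    · obtain ⟨hn, hzy⟩ := hzy
      rcases hzy with ⟨g1, g2, g3, g4, g5⟩ | ⟨g1, g2, g3, g4⟩ | ⟨g1, g2, g3, g4, g5, g6⟩ |
        ⟨g1, g2, g3, g4, g5, g6⟩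
      · refine ⟨?_, ⟨by omega, by omega⟩, by omega⟩
        rcases h1 with h1 | h1 | ⟨h5, h6, h7, h8⟩
        · exact Or.inl (by omega)
        · rw [hn] at h1
          exact Or.inr (Or.inl (by omega))
        · exact Or.inr (Or.inr ⟨g1 ▸ h5, g2 ▸ h6, by omega, by omega⟩)
      · refine ⟨?_, ⟨by omega, by omega⟩, by omega⟩
        rcases h1 with h1 | h1 | ⟨h5, h6, h7, h8⟩
        · exact Or.inl (by omega)
        · rw [hn] at h1
          exact Or.inr (Or.inl (by omega))
        · exact Or.inr (Or.inr ⟨g1 ▸ h5, g2 ▸ h6, by omega, by omega⟩)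
      · refine ⟨Or.inl (by omega), ⟨by omega, by omega⟩, by omega⟩
      · rw [hn] at g4
        refine ⟨Or.inr (Or.inl (by omega)), ⟨by omega, by omega⟩, by omega⟩

/-- Window of positions. -/
def W (l k r : ℕ) : Finset ℕ := range (r + 1) ∪ (Icc (l - r) l ∪ Icc (k - r) (k + r))

theorem W_card (l k r : ℕ) : (W l k r).card ≤ 4 * r + 3 := by
  unfold W
  have h1 := card_union_le (range (r + 1)) (Icc (l - r) l ∪ Icc (k - r) (k + r))
  have h2 := card_union_le (Icc (l - r) l) (Icc (k - r) (k + r))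
  rw [card_range] at h1
  rw [Nat.card_Icc, Nat.card_Icc] at h2
  omega

theorem mem_W {r : ℕ} {x y : XPt} (h : Near XAdj r x y) : y.k ∈ W (ell x.n) x.k r := by
  obtain ⟨h1, -, h3⟩ := near_window h
  have h4 := y.hk
  rw [h3] at h1 h4
  unfold W
  simp only [mem_union, mem_range, mem_Icc]
  rcases h1 with h1 | h1 | ⟨-, -, h5, h6⟩
  · left; omega
  · right; left; omega
  · right; right; omega

theorem dvd_card_le_one (K a b : ℕ) (h : b < a + K) :
    ((Icc a b).filter (K ∣ ·)).card ≤ 1 := by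
  rw [card_le_one]
  intro u hu v hv
  simp only [mem_filter, mem_Icc] at hu hv
  obtain ⟨⟨hu1, hu2⟩, hu3⟩ := hu
  obtain ⟨⟨hv1, hv2⟩, hv3⟩ := hv
  rcases le_total u v with huv | huv
  · have h1 : K ∣ v - u := Nat.dvd_sub hv3 hu3
    have h2 := Nat.eq_zero_of_dvd_of_lt h1 (by omega)
    omega
  · have h1 : K ∣ u - v := Nat.dvd_sub hu3 hv3
    have h2 := Nat.eq_zero_of_dvd_of_lt h1 (by omega)
    omega

theorem W_dvd_card (l k r K : ℕ) (hK : 2 * r + 1 ≤ K) :
    ((W l k r).filter (K ∣ ·)).card ≤ 3 := by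
  unfold W
  rw [filter_union, filter_union]
  have h0 : range (r + 1) = Icc 0 r := by
    ext z
    simp only [mem_range, mem_Icc]
    omega
  rw [h0]
  have h1 := card_union_le ((Icc 0 r).filter (K ∣ ·))
    ((Icc (l - r) l).filter (K ∣ ·) ∪ (Icc (k - r) (k + r)).filter (K ∣ ·))
  have h2 := card_union_le ((Icc (l - r) l).filter (K ∣ ·)) ((Icc (k - r) (k + r)).filter (K ∣ ·))
  have h3 := dvd_card_le_one K 0 r (by omega)
  have h4 := dvd_card_le_one K (l - r) l (by omega)
  have h5 := dvd_card_le_one K (k - r) (k + r) (by omega)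
  omega

/-- Points of one type are determined by `(k,h)`. -/
theorem injOn_kh {S : Finset XPt} {r : ℕ} {x : XPt} {i j : Fin 3}
    (hS : ∀ y ∈ S, Near XAdj r x y ∧ y.i = i ∧ y.j = j) :
    Set.InjOn (fun y : XPt => (y.k, y.h)) S := by
  intro y hy z hz hyz
  obtain ⟨h1, h2, h3⟩ := hS y hy
  obtain ⟨g1, g2, g3⟩ := hS z hz
  have h4 := (near_window h1).2.2
  have g4 := (near_window g1).2.2
  simp only [Prod.mk.injEq] at hyz
  ext
  · rw [h4, g4]
  · rw [h2, g2]
  · rw [h3, g3]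
  · exact hyz.1
  · exact hyz.2

theorem card_low {S : Finset XPt} {r : ℕ} {x : XPt} {i j : Fin 3}
    (hS : ∀ y ∈ S, Near XAdj r x y ∧ y.i = i ∧ y.j = j) :
    S.card ≤ (4 * r + 3) * (K x.n i j ^ 2 + 1) := by
  have h1 : S.card ≤ (W (ell x.n) x.k r ×ˢ range (K x.n i j ^ 2 + 1)).card := by
    apply Finset.card_le_card_of_injOn (fun y : XPt => (y.k, y.h)) _ (injOn_kh hS)
    intro y hy
    obtain ⟨h1, h2, h3⟩ := hS y hy
    have h4 := (near_window h1).2.2
    simp only [coe_product, Set.mem_prod, mem_coe, mem_range]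
    refine ⟨mem_W h1, ?_⟩
    have := y.hh
    rw [h2, h3, h4] at this
    rcases this with h | h
    · omega
    · omega
  rw [card_product, card_range] at h1
  exact h1.trans (Nat.mul_le_mul_right _ (W_card _ _ _))

theorem card_gen1 {S : Finset XPt} {r : ℕ} {x : XPt} {i j : Fin 3}
    (hS : ∀ y ∈ S, Near XAdj r x y ∧ y.i = i ∧ y.j = j) :
    S.card ≤ (4 * r + 3) * (2 * r + 1) := by
  have h1 : S.card ≤ (W (ell x.n) x.k r ×ˢ Icc (x.h - r) (x.h + r)).card := by
    apply Finset.card_le_card_of_injOn (fun y : XPt => (y.k, y.h)) _ (injOn_kh hS)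
    intro y hy
    obtain ⟨h1, h2, h3⟩ := hS y hy
    have h4 := (near_window h1).2.1
    simp only [coe_product, Set.mem_prod, mem_coe, mem_Icc]
    exact ⟨mem_W h1, by omega, by omega⟩
  rw [card_product, Nat.card_Icc] at h1
  exact h1.trans (Nat.mul_le_mul (W_card _ _ _) (by omega))

theorem card_high {S : Finset XPt} {r : ℕ} {x : XPt} {i j : Fin 3}
    (hS : ∀ y ∈ S, Near XAdj r x y ∧ y.i = i ∧ y.j = j) (hK : 2 * r + 1 ≤ K x.n i j) :
    S.card ≤ 10 * r + 6 := by
  have h1 : S.card ≤ ((W (ell x.n) x.k r ×ˢ {0}) ∪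
      ((W (ell x.n) x.k r).filter (K x.n i j ∣ ·) ×ˢ Icc (x.h - r) (x.h + r))).card := by
    apply Finset.card_le_card_of_injOn (fun y : XPt => (y.k, y.h)) _ (injOn_kh hS)
    intro y hy
    obtain ⟨h1, h2, h3⟩ := hS y hy
    have h4 := (near_window h1).2.1
    have h5 := (near_window h1).2.2
    have h6 := y.hh
    rw [h2, h3, h5] at h6
    rw [mem_coe, mem_union]
    rcases h6 with h6 | ⟨h6, -⟩
    · left
      simp only [mem_product, mem_singleton]
      exact ⟨mem_W h1, h6⟩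
    · right
      simp only [mem_product, mem_filter, mem_Icc]
      exact ⟨⟨mem_W h1, h6⟩, by omega, by omega⟩
  have h2 := card_union_le (W (ell x.n) x.k r ×ˢ {0})
      ((W (ell x.n) x.k r).filter (K x.n i j ∣ ·) ×ˢ Icc (x.h - r) (x.h + r))
  rw [card_product, card_product, Nat.card_Icc, card_singleton, mul_one] at h2
  have h3 := W_card (ell x.n) x.k r
  have h4 := W_dvd_card (ell x.n) x.k r (K x.n i j) hK
  have h5 : ((W (ell x.n) x.k r).filter (K x.n i j ∣ ·)).card * (x.h + r + 1 - (x.h - r)) ≤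
      3 * (2 * r + 1) := Nat.mul_le_mul h4 (by omega)
  omega

/-- Total bound from bounds on the nine types. -/
theorem card_types {S : Finset XPt} (c : ℕ)
    (hS : ∀ i j : Fin 3, (S.filter (fun y => (y.i, y.j) = (i, j))).card ≤ c) :
    S.card ≤ c * 9 := by
  have := Finset.card_le_mul_card_image_of_maps_to (s := S) (t := (univ : Finset (Fin 3 × Fin 3)))
    (f := fun y => (y.i, y.j)) (fun _ _ => mem_univ _) c (fun p _ => hS p.1 p.2)
  have h9 : (univ : Finset (Fin 3 × Fin 3)).card = 9 := by decide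
  rw [h9] at this
  exact this

theorem card_gen {S : Finset XPt} {r : ℕ} {x : XPt} (hS : ∀ y ∈ S, Near XAdj r x y) :
    S.card ≤ (4 * r + 3) * (2 * r + 1) * 9 := by
  apply card_types
  intro i j
  apply card_gen1 (x := x) (r := r) (i := i) (j := j)
  intro y hy
  rw [mem_filter, Prod.mk.injEq] at hy
  exact ⟨hS y hy.1, hy.2⟩

theorem K_le (n : ℕ) (i j : Fin 3) : K n i j ≤ scale (10 * n + 8) := by
  apply scale_mono
  have := i.isLt
  have := j.isLt
  omega

theorem scale8_le_ell (n : ℕ) : scale (10 * n + 8) ^ 8 ≤ ell n := scale_gap (by omega)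

theorem Ksq_le_ell (n : ℕ) (i j : Fin 3) : K n i j ^ 2 ≤ ell n := by
  calc K n i j ^ 2 ≤ scale (10 * n + 8) ^ 2 := Nat.pow_le_pow_left (K_le n i j) 2
    _ ≤ scale (10 * n + 8) ^ 8 := Nat.pow_le_pow_right (scale_pos _) (by norm_num)
    _ ≤ ell n := scale8_le_ell n

theorem ell_mono {m n : ℕ} (h : m ≤ n) : ell m ≤ ell n := scale_mono (by omega)

theorem h_le (y : XPt) : y.h ≤ ell y.n := by
  rcases y.hh with h | ⟨-, h⟩
  · omega
  · exact h.trans (Ksq_le_ell _ _ _)

/-- Number of points at levels `< n + 1`. -/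
theorem card_levels {S : Finset XPt} {n : ℕ} (hS : ∀ y ∈ S, y.n ≤ n) :
    S.card ≤ 9 * (n + 1) * (ell n + 1) ^ 2 := by
  have h1 : S.card ≤ (range (n + 1) ×ˢ ((univ : Finset (Fin 3)) ×ˢ ((univ : Finset (Fin 3)) ×ˢ
      (range (ell n + 1) ×ˢ range (ell n + 1))))).card := by
    apply Finset.card_le_card_of_injOn (fun y : XPt => (y.n, y.i, y.j, y.k, y.h))
    · intro y hy
      have h1 := hS y hy
      have h2 := ell_mono h1
      have h3 := y.hk
      have h4 := h_le y
      simp only [coe_product, Set.mem_prod, mem_coe, mem_range, mem_univ, true_and]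
      refine ⟨by omega, by omega, by omega⟩
    · intro y _ z _ hyz
      simp only [Prod.mk.injEq] at hyz
      obtain ⟨h1, h2, h3, h4, h5⟩ := hyz
      ext
      · exact h1
      · rw [h2]
      · rw [h3]
      · exact h4
      · exact h5
  simp only [card_product, card_range, card_univ, Fintype.card_fin] at h1
  refine h1.trans (le_of_eq ?_)
  ring

theorem n_lt_ell (n : ℕ) : n < ell n := by
  have := lt_scale (10 * n + 9)
  unfold ell
  omega

/-- Bound for the cardinality of a set from bounds on its finite subsets. -/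
theorem encard_le_of_finset {α : Type} (s : Set α) (N : ℕ)
    (h : ∀ S : Finset α, (∀ y ∈ S, y ∈ s) → S.card ≤ N) : s.encard ≤ (N : ℕ∞) := by
  by_contra hc
  rw [not_le] at hc
  have h1 : ((N + 1 : ℕ) : ℕ∞) ≤ s.encard := by
    have := Order.add_one_le_of_lt hc
    exact_mod_cast this
  obtain ⟨t, hts, ht⟩ := Set.exists_subset_encard_eq h1
  have hfin : t.Finite := Set.finite_of_encard_eq_coe ht
  have h2 := h hfin.toFinset (fun y hy => hts (hfin.mem_toFinset.1 hy))
  have h3 : t.encard = (hfin.toFinset.card : ℕ∞) := by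
    rw [← Set.encard_coe_eq_coe_finsetCard, hfin.coe_toFinset]
  rw [h3] at ht
  have h4 : hfin.toFinset.card = N + 1 := by exact_mod_cast ht
  omega

/-- Bound on the number of points in a ball of `X`. -/
theorem card_ballX (x : XPt) (r : ℕ) (S : Finset XPt) (hS : ∀ y ∈ S, gX.cd x y ≤ r) :
    S.card ≤ (4 * r + 3) * (2 * r + 1) * 9 + 9 * (r + 1) * (ell r + 1) ^ 2 := by
  have h1 : S ⊆ S.filter (fun y => Near XAdj r x y) ∪ S.filter (fun y => y.n ≤ r) := by
    intro y hy
    rw [mem_union, mem_filter, mem_filter]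
    rcases (gX.cd_le_iff x y r).1 (hS y hy) with h | h
    · exact Or.inl ⟨hy, h⟩
    · right
      refine ⟨hy, ?_⟩
      have h2 : ell x.n + ell y.n ≤ r := h
      have h3 := n_lt_ell y.n
      omega
  have h2 := (card_le_card h1).trans (card_union_le _ _)
  have h3 := card_gen (S := S.filter (fun y => Near XAdj r x y)) (r := r) (x := x)
    (fun y hy => (mem_filter.1 hy).2)
  have h4 := card_levels (S := S.filter (fun y => y.n ≤ r)) (n := r)
    (fun y hy => (mem_filter.1 hy).2)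
  omega

theorem ulfX (r : ℝ) : ∃ N : ℕ, ∀ x : XPt, (Metric.closedBall x r).encard ≤ (N : ℕ∞) := by
  refine ⟨(4 * ⌊r⌋₊ + 3) * (2 * ⌊r⌋₊ + 1) * 9 + 9 * (⌊r⌋₊ + 1) * (ell ⌊r⌋₊ + 1) ^ 2, fun x => ?_⟩
  apply encard_le_of_finset
  intro S hS
  apply card_ballX x
  intro y hy
  have h := hS y hy
  rw [Metric.mem_closedBall, dist_comm, dist_X] at h
  exact Nat.le_floor h

/-- At most four points of `Y` over a point of `X`. -/
theorem card_fiberY (S : Finset YPt) : S.card ≤ 4 * (S.image YPt.x).card := by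
  apply Finset.card_le_mul_card_image_of_maps_to (fun y hy => mem_image_of_mem _ hy)
  intro x _
  have h1 : (S.filter (fun y => y.x = x)).card ≤ (univ : Finset (Fin 4)).card := by
    apply Finset.card_le_card_of_injOn (fun y => y.a) (fun _ _ => mem_univ _)
    intro y hy z hz hyz
    simp only [coe_filter, Set.mem_ofPred_eq] at hy hz
    ext1
    · rw [hy.2, hz.2]
    · exact hyz
  simpa using h1

theorem ulfY (r : ℝ) : ∃ N : ℕ, ∀ y : YPt, (Metric.closedBall y r).encard ≤ (N : ℕ∞) := by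
  refine ⟨4 * ((4 * ⌊r⌋₊ + 3) * (2 * ⌊r⌋₊ + 1) * 9 + 9 * (⌊r⌋₊ + 1) * (ell ⌊r⌋₊ + 1) ^ 2),
    fun y => ?_⟩
  apply encard_le_of_finset
  intro S hS
  refine (card_fiberY S).trans (Nat.mul_le_mul_left 4 ?_)
  apply card_ballX y.x
  intro z hz
  obtain ⟨w, hw, rfl⟩ := mem_image.1 hz
  have h := hS w hw
  rw [Metric.mem_closedBall, dist_comm, dist_Y] at h
  exact (cdX_le_cdY y w).trans (Nat.le_floor h)

/-! ### Lower bound -/

/-- Spine point. -/
def sp (n : ℕ) (i j : Fin 3) (k : ℕ) (hk : k ≤ ell n) : XPt := ⟨n, i, j, k, 0, hk, Or.inl rfl⟩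

theorem near_spine (n : ℕ) (i j : Fin 3) (k d : ℕ) (hk : k ≤ ell n) (hkd : k + d ≤ ell n) :
    Near XAdj d (sp n i j k hk) (sp n i j (k + d) hkd) := by
  induction d with
  | zero => rfl
  | succ d ih =>
    refine ⟨sp n i j (k + d) (by omega), ih (by omega), Or.inr ⟨rfl, Or.inl ?_⟩⟩
    exact ⟨rfl, rfl, rfl, rfl, Or.inl rfl⟩

theorem near_hair (n : ℕ) (i j : Fin 3) (k h : ℕ) (hk : k ≤ ell n) (hd : K n i j ∣ k)
    (hh : h ≤ K n i j ^ 2) :
    Near XAdj h (sp n i j k hk) ⟨n, i, j, k, h, hk, Or.inr ⟨hd, hh⟩⟩ := by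
  induction h with
  | zero => rfl
  | succ h ih =>
    refine ⟨⟨n, i, j, k, h, hk, Or.inr ⟨hd, by omega⟩⟩, ih (by omega), Or.inr ⟨rfl, Or.inr (Or.inl ?_)⟩⟩
    exact ⟨rfl, rfl, rfl, Or.inl rfl⟩

theorem near_spine' (n : ℕ) (i j : Fin 3) (k k' d : ℕ) (hk : k ≤ ell n) (hk' : k' ≤ ell n)
    (h1 : k ≤ k' + d) (h2 : k' ≤ k + d) :
    Near XAdj d (sp n i j k hk) (sp n i j k' hk') := by
  rcases le_total k k' with h | h
  · obtain ⟨c, rfl⟩ := Nat.exists_eq_add_of_le h
    exact (near_spine n i j k c hk hk').mono (by omega)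
  · obtain ⟨c, rfl⟩ := Nat.exists_eq_add_of_le h
    exact ((near_spine n i j k' c hk' hk).symm (fun _ _ h => h.symm)).mono (by omega)

theorem lower_count (n : ℕ) (i j : Fin 3) (k : ℕ) (hk : k ≤ ell n) :
    ∃ S : Finset XPt, (∀ y ∈ S, Near XAdj (2 * K n i j ^ 2) (sp n i j k hk) y) ∧
      S.card = K n i j ^ 3 := by
  set P := K n i j with hP
  have hPpos : 0 < P := K_pos n i j
  have hell : 2 * P ^ 2 ≤ ell n := by
    have h1 : P ^ 8 ≤ ell n := (Nat.pow_le_pow_left (K_le n i j) 8).trans (scale8_le_ell n)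
    have h2 : 2 ≤ P := by
      have : 10 * n + (3 * i.val + j.val) < P := lt_scale _
      have h3 : (2 : ℕ) ^ 1 ≤ P := by
        rw [hP]; unfold K scale
        exact Nat.pow_le_pow_right (by norm_num) (Nat.one_le_pow _ _ (by norm_num))
      simpa using h3
    have h3 : 2 * P ^ 2 ≤ P ^ 8 := by
      calc 2 * P ^ 2 ≤ P * P ^ 2 := Nat.mul_le_mul_right _ h2
        _ = P ^ 3 := by ring
        _ ≤ P ^ 8 := Nat.pow_le_pow_right hPpos (by norm_num)
    omega
  -- position of the `a`-th hair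
  have key : ∃ pos : ℕ → ℕ, ∀ a < P, pos a ≤ ell n ∧ P ∣ pos a ∧ k ≤ pos a + P ^ 2 ∧
      pos a ≤ k + P ^ 2 ∧ ∀ b < P, pos a = pos b → a = b := by
    have hdm := Nat.div_add_mod k P
    have hml := Nat.mod_lt k hPpos
    set q := k / P with hq
    by_cases h2k : 2 * k ≤ ell n
    · refine ⟨fun a => P * (q + 1 + a), fun a ha => ?_⟩
      have h1 : P * (q + 1 + a) ≤ k + P ^ 2 := by
        have : P * (1 + a) ≤ P ^ 2 := by
          rw [pow_two]; exact Nat.mul_le_mul_left _ (by omega)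
        have h3 : P * (q + 1 + a) = P * q + P * (1 + a) := by ring
        omega
      refine ⟨?_, dvd_mul_right _ _, ?_, h1, ?_⟩
      · show P * (q + 1 + a) ≤ ell n
        omega
      · have h3 : P * (q + 1 + a) = P * q + P + P * a := by ring
        show k ≤ P * (q + 1 + a) + P ^ 2
        omega
      · intro b _ hab
        have := Nat.eq_of_mul_eq_mul_left hPpos hab
        omega
    · have hkP : P ^ 2 < k := by omega
      have hqP : P ≤ q := by
        rw [hq, Nat.le_div_iff_mul_le hPpos, ← pow_two]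
        exact hkP.le
      refine ⟨fun a => P * (q - a), fun a ha => ?_⟩
      have h1 : P * (q - a) ≤ P * q := Nat.mul_le_mul_left _ (by omega)
      refine ⟨?_, dvd_mul_right _ _, ?_, ?_, ?_⟩
      · show P * (q - a) ≤ ell n
        omega
      · show k ≤ P * (q - a) + P ^ 2
        have h3 : P * (q - a) + P * (a + 1) = P * q + P := by
          rw [← Nat.mul_add]
          have : q - a + (a + 1) = q + 1 := by omega
          rw [this]; ring
        have h4 : P * (a + 1) ≤ P ^ 2 := by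
          rw [pow_two]; exact Nat.mul_le_mul_left _ (by omega)
        omega
      · show P * (q - a) ≤ k + P ^ 2
        omega
      · intro b hb hab
        have := Nat.eq_of_mul_eq_mul_left hPpos hab
        omega
  obtain ⟨pos, hpos⟩ := key
  let F : ℕ × ℕ → XPt := fun p =>
    if h : p.1 < P ∧ p.2 < P ^ 2 then
      ⟨n, i, j, pos p.1, p.2, (hpos p.1 h.1).1, Or.inr ⟨(hpos p.1 h.1).2.1, h.2.le⟩⟩
    else sp n i j 0 (Nat.zero_le _)
  have hF : ∀ p (h : p.1 < P ∧ p.2 < P ^ 2), F p =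
      ⟨n, i, j, pos p.1, p.2, (hpos p.1 h.1).1, Or.inr ⟨(hpos p.1 h.1).2.1, h.2.le⟩⟩ := by
    intro p h
    simp only [F, dif_pos h]
  refine ⟨(range P ×ˢ range (P ^ 2)).image F, ?_, ?_⟩
  · intro y hy
    obtain ⟨p, hp, rfl⟩ := mem_image.1 hy
    rw [mem_product, mem_range, mem_range] at hp
    rw [hF p hp]
    obtain ⟨h1, h2, h3, h4, -⟩ := hpos p.1 hp.1
    have g1 := near_spine' n i j k (pos p.1) (P ^ 2) hk h1 h3 h4
    have g2 := near_hair n i j (pos p.1) p.2 h1 h2 hp.2.le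
    exact (g1.trans g2).mono (by omega)
  · rw [card_image_of_injOn, card_product, card_range, card_range]
    · ring
    · intro p hp q hq hpq
      simp only [coe_product, Set.mem_prod, mem_coe, mem_range] at hp hq
      rw [hF p hp, hF q hq, XPt.mk.injEq] at hpq
      obtain ⟨-, -, -, h4, h5⟩ := hpq
      have h6 := (hpos p.1 hp.1).2.2.2.2 q.1 hq.1 h4
      exact Prod.ext h6 h5

end Pool.Agent.W_MP_42dd51_an
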