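import Pool.Agent.W_MP_42dd51_an.Cone

set_option autoImplicit false

namespace Pool.Agent.W_MP_42dd51_an

open Finset

/-- Rapidly increasing scales. -/
def scale (s : ℕ) : ℕ := 2 ^ (8 ^ s)

/-- Spacing of the hairs on the edge `(i,j)` at level `n` (the hairs have length `K^2`). -/
def K (n : ℕ) (i j : Fin 3) : ℕ := scale (10 * n + (3 * i.val + j.val))

/-- Length of the edges at level `n`. -/
def ell (n : ℕ) : ℕ := scale (10 * n + 9)

theorem scale_succ (s : ℕ) : scale (s + 1) = scale s ^ 8 := by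
  simp [scale, pow_succ, pow_mul]

theorem scale_pos (s : ℕ) : 0 < scale s := by
  unfold scale; positivity

theorem lt_scale (s : ℕ) : s < scale s := by
  unfold scale
  calc s < 2 ^ s := Nat.lt_two_pow_self
    _ ≤ 2 ^ (8 ^ s) := Nat.pow_le_pow_right (by norm_num) (Nat.lt_pow_self (by norm_num)).le

theorem scale_mono {s t : ℕ} (h : s ≤ t) : scale s ≤ scale t := by
  unfold scale
  exact Nat.pow_le_pow_right (by norm_num) (Nat.pow_le_pow_right (by norm_num) h)

theorem scale_gap {s t : ℕ} (h : s < t) : scale s ^ 8 ≤ scale t := by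
  rw [← scale_succ]
  exact scale_mono h

theorem K_pos (n : ℕ) (i j : Fin 3) : 0 < K n i j := scale_pos _
theorem ell_pos (n : ℕ) : 0 < ell n := scale_pos _

/-- Points of the space `X`: a position `k` on the edge `(i,j)` of the `n`-th copy of a subdivided
`K_{3,3}`, and a height `h` on a hair. -/
@[ext]
structure XPt where
  n : ℕ
  i : Fin 3
  j : Fin 3
  k : ℕ
  h : ℕ
  hk : k ≤ ell n
  hh : h = 0 ∨ (K n i j ∣ k ∧ h ≤ K n i j ^ 2)

/-- Adjacency in `X`. -/
def XAdj (x y : XPt) : Prop :=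
  x.n = y.n ∧
  ((x.i = y.i ∧ x.j = y.j ∧ x.h = 0 ∧ y.h = 0 ∧ (y.k = x.k + 1 ∨ x.k = y.k + 1)) ∨
   (x.i = y.i ∧ x.j = y.j ∧ x.k = y.k ∧ (y.h = x.h + 1 ∨ x.h = y.h + 1)) ∨
   (x.i = y.i ∧ x.j ≠ y.j ∧ x.k = 0 ∧ y.k = 0 ∧ x.h = 0 ∧ y.h = 0) ∨
   (x.j = y.j ∧ x.i ≠ y.i ∧ x.k = ell x.n ∧ y.k = ell x.n ∧ x.h = 0 ∧ y.h = 0))

theorem XAdj.symm {x y : XPt} (h : XAdj x y) : XAdj y x := by
  obtain ⟨hn, h⟩ := h
  refine ⟨hn.symm, ?_⟩
  rcases h with ⟨h1, h2, h3, h4, h5⟩ | ⟨h1, h2, h3, h4⟩ | ⟨h1, h2, h3, h4, h5, h6⟩ |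
    ⟨h1, h2, h3, h4, h5, h6⟩
  · exact Or.inl ⟨h1.symm, h2.symm, h4, h3, h5.symm⟩
  · exact Or.inr (Or.inl ⟨h1.symm, h2.symm, h3.symm, h4.symm⟩)
  · exact Or.inr (Or.inr (Or.inl ⟨h1.symm, h2.symm, h4, h3, h6, h5⟩))
  · exact Or.inr (Or.inr (Or.inr ⟨h1.symm, h2.symm, hn ▸ h4, hn ▸ h3, h6, h5⟩))

/-- The graph `X`. -/
def gX : CG XPt where
  adj := XAdj
  symm _ _ h := h.symm
  D x := ell x.n
  Dpos x := ell_pos _
  Dadj x y h := by rw [h.1]

noncomputable instance : MetricSpace XPt := gX.metric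

/-- Row contexts of the magic square: unnormalised eigenvectors. -/
def rowM : Fin 3 → Fin 4 → Fin 4 → ℤ :=
  ![![![1, 1, 1, 1], ![1, -1, 1, -1], ![1, 1, -1, -1], ![1, -1, -1, 1]],
    ![![2, 0, 0, 0], ![0, 0, 2, 0], ![0, 2, 0, 0], ![0, 0, 0, 2]],
    ![![1, 1, 1, -1], ![1, -1, 1, 1], ![1, 1, -1, 1], ![1, -1, -1, -1]]]

/-- Column contexts of the magic square: unnormalised eigenvectors. -/
def colM : Fin 3 → Fin 4 → Fin 4 → ℤ :=
  ![![![1, 0, 1, 0], ![0, 1, 0, 1], ![1, 0, -1, 0], ![0, 1, 0, -1]],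
    ![![1, 1, 0, 0], ![0, 0, 1, 1], ![1, -1, 0, 0], ![0, 0, 1, -1]],
    ![![1, 0, 0, 1], ![0, 1, 1, 0], ![1, 0, 0, -1], ![0, 1, -1, 0]]]

/-- First sign bit of a label. -/
def bit1 (a : Fin 4) : Bool := decide (2 ≤ a.val)
/-- Second sign bit of a label. -/
def bit2 (a : Fin 4) : Bool := decide (a.val % 2 = 1)

/-- Eigenvalue (as a bit) of the observable `(i,j)` on the `a`-th vector of row `i`. -/
def rowsign (j : Fin 3) (a : Fin 4) : Bool :=
  if j = 0 then bit1 a else if j = 1 then bit2 a else xor (bit1 a) (bit2 a)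

/-- Eigenvalue (as a bit) of the observable `(i,j)` on the `a`-th vector of column `j`. -/
def colsign (i j : Fin 3) (a : Fin 4) : Bool :=
  if i = 0 then bit1 a else if i = 1 then bit2 a else
    xor (xor (bit1 a) (bit2 a)) (decide (j = 2))

theorem sign_compat : ∀ (i j : Fin 3) (a b : Fin 4), ∑ k, rowM i a k * colM j b k ≠ 0 →
    rowsign j a = colsign i j b := by decide +kernel

theorem row_orth : ∀ (i : Fin 3) (a b : Fin 4),
    ∑ k, rowM i a k * rowM i b k = if a = b then 4 else 0 := by decide +kernel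

theorem col_orth : ∀ (j : Fin 3) (a b : Fin 4),
    ∑ k, colM j a k * colM j b k = if a = b then 2 else 0 := by decide +kernel

theorem row_orth' : ∀ (i : Fin 3) (k l : Fin 4),
    ∑ a, rowM i a k * rowM i a l = if k = l then 4 else 0 := by decide +kernel

theorem col_orth' : ∀ (j : Fin 3) (k l : Fin 4),
    ∑ a, colM j a k * colM j a l = if k = l then 2 else 0 := by decide +kernel

theorem magic_bool : ∀ (a0 b0 a1 b1 a2 b2 c0 d0 c1 d1 c2 d2 : Bool),
    a0 = c0 → b0 = c1 → xor a0 b0 = c2 → a1 = d0 → b1 = d1 → xor a1 b1 = d2 →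
    a2 = xor c0 d0 → b2 = xor c1 d1 → xor a2 b2 = xor (xor c2 d2) true → False := by
  decide +kernel

/-- The parity contradiction. -/
theorem magic (α β : Fin 3 → Fin 4) (h : ∀ i j, rowsign j (α i) = colsign i j (β j)) : False :=
  magic_bool (bit1 (α 0)) (bit2 (α 0)) (bit1 (α 1)) (bit2 (α 1)) (bit1 (α 2)) (bit2 (α 2))
    (bit1 (β 0)) (bit2 (β 0)) (bit1 (β 1)) (bit2 (β 1)) (bit1 (β 2)) (bit2 (β 2))
    (by simpa [rowsign, colsign] using h 0 0) (by simpa [rowsign, colsign] using h 0 1)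
    (by simpa [rowsign, colsign] using h 0 2) (by simpa [rowsign, colsign] using h 1 0)
    (by simpa [rowsign, colsign] using h 1 1) (by simpa [rowsign, colsign] using h 1 2)
    (by simpa [rowsign, colsign] using h 2 0) (by simpa [rowsign, colsign] using h 2 1)
    (by simpa [rowsign, colsign] using h 2 2)

/-- Whether a point is in the row half of its edge. -/
def inRow (x : XPt) : Prop := 2 * x.k < ell x.n

instance (x : XPt) : Decidable (inRow x) := by unfold inRow; infer_instance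

/-- The context at the point `x`. -/
def M (x : XPt) (a k : Fin 4) : ℤ := if inRow x then rowM x.i a k else colM x.j a k

/-- Square of the norm of the vectors at `x`. -/
def wt (x : XPt) : ℤ := if inRow x then 4 else 2

theorem M_orth (x : XPt) (a b : Fin 4) : ∑ k, M x a k * M x b k = if a = b then wt x else 0 := by
  unfold M wt
  split_ifs with h1 h2 h2
  · rw [row_orth]; simp [h2]
  · rw [row_orth]; simp [h2]
  · rw [col_orth]; simp [h2]
  · rw [col_orth]; simp [h2]

theorem M_orth' (x : XPt) (k l : Fin 4) : ∑ a, M x a k * M x a l = if k = l then wt x else 0 := by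
  unfold M wt
  split_ifs with h1 h2 h2
  · rw [row_orth']; simp [h2]
  · rw [row_orth']; simp [h2]
  · rw [col_orth']; simp [h2]
  · rw [col_orth']; simp [h2]

theorem wt_pos (x : XPt) : 0 < wt x := by
  unfold wt; split_ifs <;> norm_num

/-- Points of `Y`. -/
@[ext]
structure YPt where
  x : XPt
  a : Fin 4

/-- Inner product of two (unnormalised) vectors. -/
def ip (y z : YPt) : ℤ := ∑ k, M y.x y.a k * M z.x z.a k

theorem ip_comm (y z : YPt) : ip y z = ip z y := by
  unfold ip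
  exact Finset.sum_congr rfl (fun k _ => mul_comm _ _)

def YAdj (y z : YPt) : Prop := XAdj y.x z.x ∧ ip y z ≠ 0

/-- The graph `Y`. -/
def gY : CG YPt where
  adj := YAdj
  symm y z h := ⟨h.1.symm, by rw [ip_comm]; exact h.2⟩
  D y := ell y.x.n
  Dpos y := ell_pos _
  Dadj y z h := by rw [h.1.1]

noncomputable instance : MetricSpace YPt := gY.metric

theorem dist_X (x x' : XPt) : dist x x' = (gX.cd x x' : ℝ) := rfl
theorem dist_Y (y y' : YPt) : dist y y' = (gY.cd y y' : ℝ) := rfl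

theorem near_X_of_Y {r : ℕ} {y z : YPt} (h : Near YAdj r y z) : Near XAdj r y.x z.x := by
  induction r generalizing z with
  | zero => exact congrArg YPt.x h
  | succ r ih =>
    obtain ⟨w, hw, hwz⟩ := h
    refine ⟨w.x, ih hw, ?_⟩
    rcases hwz with rfl | hwz
    · exact Or.inl rfl
    · exact Or.inr hwz.1

theorem cdX_le_cdY (y z : YPt) : gX.cd y.x z.x ≤ gY.cd y z := by
  rw [gX.cd_le_iff]
  rcases (gY.cd_le_iff y z _).1 le_rfl with h | h
  · exact Or.inl (near_X_of_Y h)
  · exact Or.inr h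

/-- Path lifting: nonorthogonal vectors over a path of length `r` are joined by a path of
length `r` in `Y`. -/
theorem near_Y_of_X {r : ℕ} {x x' : XPt} (h : Near XAdj r x x') (a b : Fin 4)
    (hip : ip ⟨x, a⟩ ⟨x', b⟩ ≠ 0) : Near YAdj r ⟨x, a⟩ ⟨x', b⟩ := by
  induction r generalizing x' b with
  | zero =>
    cases h
    have : a = b := by
      by_contra hab
      apply hip
      unfold ip
      simp only
      rw [M_orth, if_neg hab]
    subst this
    exact Near.refl _ _
  | succ r ih =>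
    obtain ⟨z, hz, hzx⟩ := h
    -- completeness relation at `z`
    have hc : ∑ c, ip ⟨x, a⟩ ⟨z, c⟩ * ip ⟨z, c⟩ ⟨x', b⟩ = wt z * ip ⟨x, a⟩ ⟨x', b⟩ := by
      unfold ip
      simp only
      calc ∑ c, (∑ k, M x a k * M z c k) * (∑ l, M z c l * M x' b l)
          = ∑ c, ∑ k, ∑ l, (M x a k * M x' b l) * (M z c k * M z c l) := by
            refine Finset.sum_congr rfl fun c _ => ?_
            rw [Finset.sum_mul_sum]
            refine Finset.sum_congr rfl fun k _ => Finset.sum_congr rfl fun l _ => ?_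
            ring
        _ = ∑ k, ∑ l, (M x a k * M x' b l) * ∑ c, (M z c k * M z c l) := by
            rw [Finset.sum_comm]
            refine Finset.sum_congr rfl fun k _ => ?_
            rw [Finset.sum_comm]
            refine Finset.sum_congr rfl fun l _ => ?_
            rw [Finset.mul_sum]
        _ = ∑ k, ∑ l, (M x a k * M x' b l) * (if k = l then wt z else 0) := by
            refine Finset.sum_congr rfl fun k _ => Finset.sum_congr rfl fun l _ => ?_
            rw [M_orth']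
        _ = wt z * ∑ k, M x a k * M x' b k := by
            rw [Finset.mul_sum]
            refine Finset.sum_congr rfl fun k _ => ?_
            simp [mul_comm]
    have hne : ∑ c, ip ⟨x, a⟩ ⟨z, c⟩ * ip ⟨z, c⟩ ⟨x', b⟩ ≠ 0 := by
      rw [hc]
      exact mul_ne_zero (wt_pos z).ne' hip
    obtain ⟨c, -, hcc⟩ := Finset.exists_ne_zero_of_sum_ne_zero hne
    have h1 : ip ⟨x, a⟩ ⟨z, c⟩ ≠ 0 := left_ne_zero_of_mul hcc
    have h2 : ip ⟨z, c⟩ ⟨x', b⟩ ≠ 0 := right_ne_zero_of_mul hcc
    refine ⟨⟨z, c⟩, ih hz c h1, ?_⟩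
    rcases hzx with rfl | hzx
    · left
      have : c = b := by
        by_contra hab
        apply h2
        unfold ip
        simp only
        rw [M_orth, if_neg hab]
      rw [this]
    · right
      exact ⟨hzx, h2⟩

theorem cdY_le_cdX (y z : YPt) (h : ip y z ≠ 0) : gY.cd y z ≤ gX.cd y.x z.x := by
  rw [gY.cd_le_iff]
  rcases (gX.cd_le_iff y.x z.x _).1 le_rfl with h' | h'
  · exact Or.inl (near_Y_of_X h' _ _ h)
  · exact Or.inr h'

end Pool.Agent.W_MP_42dd51_an
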